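import Mathlib

/-!
Symmetric Cauchy determinant `det (1/(x i + x j))`.
-/

namespace Pool.Agent.Lib.MP_d17a30_nt

open Matrix Finset

/-- Schur complement with respect to the top left entry. -/
lemma det_schur_fin {L : Type*} [Field L] {n : ℕ} (A : Matrix (Fin (n+1)) (Fin (n+1)) L)
    (h : A 0 0 ≠ 0) :
    A.det = A 0 0 * (Matrix.of fun i j : Fin n =>
      A i.succ j.succ - A i.succ 0 * A 0 j.succ / A 0 0).det := by
  classical
  set B : Matrix (Fin (n+1)) (Fin (n+1)) L := Matrix.of fun i j =>
    if i = 0 then A i j else A i j - (A i 0 / A 0 0) * A 0 j with hB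
  have h1 : A.det = B.det := by
    apply Matrix.det_eq_of_forall_row_eq_smul_add_const
      (fun i => if i = 0 then 0 else A i 0 / A 0 0) 0 (by simp)
    intro i j
    by_cases hi : i = 0
    · subst hi; simp [hB]
    · simp [hB, hi]
  rw [h1, Matrix.det_succ_column_zero, Fin.sum_univ_succ]
  have h2 : ∀ i : Fin n, B i.succ 0 = 0 := by
    intro i
    simp [hB, h, Fin.succ_ne_zero]
  simp only [h2, mul_zero, zero_mul, Finset.sum_const_zero, add_zero]
  simp only [Fin.val_zero, pow_zero, one_mul, Fin.zero_succAbove]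
  have h3 : B 0 0 = A 0 0 := by simp [hB]
  rw [h3]
  congr 2
  ext i j
  simp only [Matrix.submatrix_apply, hB, Matrix.of_apply, Fin.succ_ne_zero, if_false,
    Fin.succAbove_zero]
  ring

lemma cauchy_fin {L : Type*} [Field L] (n : ℕ) (x : Fin n → L) (h : ∀ i j, x i + x j ≠ 0) :
    (Matrix.of fun i j => (x i + x j)⁻¹).det =
      (-1) ^ (n.choose 2) * ∏ i, ∏ j, (if i = j then (2 * x i)⁻¹ else (x i - x j) / (x i + x j)) := by
  induction n with
  | zero => simp
  | succ n ih =>
    have h00 : (Matrix.of fun i j => (x i + x j)⁻¹) 0 0 ≠ 0 := by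
      simp only [Matrix.of_apply]
      exact inv_ne_zero (h 0 0)
    rw [det_schur_fin _ h00]
    have key : (Matrix.of fun i j : Fin n =>
        (Matrix.of fun i j => (x i + x j)⁻¹) i.succ j.succ -
        (Matrix.of fun i j => (x i + x j)⁻¹) i.succ 0 *
        (Matrix.of fun i j => (x i + x j)⁻¹) 0 j.succ /
        (Matrix.of fun i j => (x i + x j)⁻¹) 0 0) =
        Matrix.of fun i j : Fin n => ((x i.succ - x 0) / (x i.succ + x 0)) *
          (Matrix.of fun i j : Fin n => ((x j.succ - x 0) / (x j.succ + x 0)) *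
            (Matrix.of fun i j : Fin n => (x i.succ + x j.succ)⁻¹) i j) i j := by
      ext i j
      simp only [Matrix.of_apply]
      have h1 := h i.succ j.succ
      have h2 := h i.succ 0
      have h3 := h 0 j.succ
      have h3' := h j.succ 0
      have h4 := h 0 0
      field_simp
      ring
    rw [key, Matrix.det_mul_column, Matrix.det_mul_row, ih (fun i => x i.succ) (fun i j => h _ _)]
    simp only [Matrix.of_apply]
    rw [Fin.prod_univ_succ, Fin.prod_univ_succ]
    simp only [Fin.prod_univ_succ (f := fun j => if _ = j then _ else _)]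
    simp only [Fin.succ_ne_zero, if_false, if_true, (Fin.succ_ne_zero _).symm, Fin.succ_inj]
    rw [Finset.prod_mul_distrib]
    have hs : ∏ j : Fin n, (x 0 - x j.succ) / (x 0 + x j.succ) =
        (-1) ^ n * ∏ j : Fin n, (x j.succ - x 0) / (x j.succ + x 0) := by
      have : ∀ j : Fin n, (x 0 - x j.succ) / (x 0 + x j.succ) =
          (-1) * ((x j.succ - x 0) / (x j.succ + x 0)) := by
        intro j
        have h3 := h 0 j.succ
        have h3' := h j.succ 0
        field_simp
        ring
      simp only [this, Finset.prod_mul_distrib, Finset.prod_const, Finset.card_univ,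
        Fintype.card_fin]
    rw [hs, Nat.choose_succ_succ' n 1, Nat.choose_one_right, pow_add]
    rw [← two_mul (x 0)]
    have hpp : ((-1 : L) ^ n) * (-1) ^ n = 1 := by
      rw [← mul_pow]; simp
    linear_combination (-(2 * x 0)⁻¹ * ((-1) ^ (n.choose 2)) *
      (∏ i : Fin n, ((x i.succ - x 0) / (x i.succ + x 0))) ^ 2 *
      (∏ i : Fin n, ∏ j : Fin n, (if i = j then (2 * x i.succ)⁻¹
        else (x i.succ - x j.succ) / (x i.succ + x j.succ)))) * hpp

lemma cauchy_fintype {L : Type*} [Field L] {ι : Type*} [Fintype ι] [DecidableEq ι] (x : ι → L)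
    (h : ∀ i j, x i + x j ≠ 0) :
    (Matrix.of fun i j => (x i + x j)⁻¹).det =
      (-1) ^ ((Fintype.card ι).choose 2) *
        ∏ i, ∏ j, (if i = j then (2 * x i)⁻¹ else (x i - x j) / (x i + x j)) := by
  classical
  let e := Fintype.equivFin ι
  have := cauchy_fin (Fintype.card ι) (fun i => x (e.symm i)) (fun i j => h _ _)
  rw [← Matrix.det_submatrix_equiv_self e.symm]
  have h1 : (Matrix.of fun i j => (x i + x j)⁻¹).submatrix e.symm e.symm =
      Matrix.of fun i j => (x (e.symm i) + x (e.symm j))⁻¹ := by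
    ext i j; simp
  rw [h1, this]
  congr 1
  rw [← Equiv.prod_comp e.symm]
  refine Finset.prod_congr rfl fun i _ => ?_
  rw [← Equiv.prod_comp e.symm]
  refine Finset.prod_congr rfl fun j _ => ?_
  simp

end Pool.Agent.Lib.MP_d17a30_nt
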