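import Mathlib
import Pool.Agent.Lib.MP_d17a30_nt.Cauchy

/-!
Products of `1 - zeta^r` over quadratic residues `r`.
-/

namespace Pool.Agent.Lib.MP_d17a30_nt

open Matrix Finset

variable {p : ℕ} [hpf : Fact p.Prime]

/-- The set of nonzero quadratic residues. -/
def R (p : ℕ) [Fact p.Prime] : Finset (ZMod p) :=
  Finset.univ.filter (fun a => quadraticChar (ZMod p) a = 1)

lemma mem_R {a : ZMod p} : a ∈ R p ↔ quadraticChar (ZMod p) a = 1 := by simp [R]

lemma ne_zero_of_mem_R {a : ZMod p} (h : a ∈ R p) : a ≠ 0 := by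
  rintro rfl
  simp [mem_R] at h

lemma one_mem_R : (1 : ZMod p) ∈ R p := by simp [mem_R]

lemma mul_mem_R {a b : ZMod p} (ha : a ∈ R p) (hb : b ∈ R p) : a * b ∈ R p := by
  rw [mem_R] at *
  rw [map_mul, ha, hb, one_mul]

lemma inv_mem_R {a : ZMod p} (ha : a ∈ R p) : a⁻¹ ∈ R p := by
  have h0 := ne_zero_of_mem_R ha
  rw [mem_R] at *
  have : quadraticChar (ZMod p) (a * a⁻¹) = 1 := by rw [mul_inv_cancel₀ h0]; simp
  rw [map_mul, ha, one_mul] at this
  exact this

lemma two_ne_zero_zmod (h4 : p % 4 = 3) : (2 : ZMod p) ≠ 0 := by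
  intro h
  have h2 : ((2 : ℕ) : ZMod p) = 0 := by exact_mod_cast h
  rw [ZMod.natCast_eq_zero_iff] at h2
  have := Nat.le_of_dvd (by norm_num) h2
  have hp := hpf.out.two_le
  have : p = 2 := by omega
  omega

lemma ringChar_ne_two (h4 : p % 4 = 3) : ringChar (ZMod p) ≠ 2 := by
  rw [ZMod.ringChar_zmod_n]
  omega

lemma char_neg_one (h4 : p % 4 = 3) : quadraticChar (ZMod p) (-1) = -1 := by
  rw [quadraticChar_neg_one (ringChar_ne_two h4), ZMod.card, ZMod.χ₄_nat_three_mod_four h4]

lemma char_neg (h4 : p % 4 = 3) (a : ZMod p) :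
    quadraticChar (ZMod p) (-a) = - quadraticChar (ZMod p) a := by
  rw [neg_eq_neg_one_mul, map_mul, char_neg_one h4]; ring

/-- Splitting off residues and nonresidues in a product. -/
lemma prod_split {M : Type*} [CommMonoid M] (h4 : p % 4 = 3) (f : ZMod p → M) :
    ∏ a, f a = f 0 * ∏ a ∈ R p, (f a * f (-a)) := by
  classical
  rw [← Finset.mul_prod_erase Finset.univ f (Finset.mem_univ 0)]
  congr 1
  rw [Finset.prod_mul_distrib]
  have h1 : Finset.univ.erase (0 : ZMod p) = R p ∪ (R p).image (fun a => -a) := by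
    ext a
    simp only [Finset.mem_erase, Finset.mem_univ, and_true, Finset.mem_union, Finset.mem_image]
    constructor
    · intro ha
      rcases quadraticChar_dichotomy ha with h | h
      · left; exact mem_R.mpr h
      · right
        refine ⟨-a, ?_, neg_neg a⟩
        rw [mem_R, char_neg h4, h]; norm_num
    · rintro (h | ⟨b, hb, rfl⟩)
      · exact ne_zero_of_mem_R h
      · exact neg_ne_zero.mpr (ne_zero_of_mem_R hb)
  rw [h1, Finset.prod_union]
  · congr 1
    rw [Finset.prod_image]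
    intro a _ b _ h
    simpa using h
  · rw [Finset.disjoint_left]
    intro a ha hb
    rw [Finset.mem_image] at hb
    obtain ⟨b, hb, rfl⟩ := hb
    rw [mem_R, char_neg h4, mem_R.mp hb] at ha
    norm_num at ha

lemma card_R (h4 : p % 4 = 3) : p = 2 * (R p).card + 1 := by
  have h := prod_split (M := Multiplicative ℕ) h4 (fun _ => Multiplicative.ofAdd 1)
  simp only [Finset.prod_const, Finset.card_univ, ZMod.card] at h
  have h' := congrArg Multiplicative.toAdd h
  simp only [toAdd_pow, toAdd_mul, toAdd_ofAdd, smul_eq_mul] at h'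
  omega

lemma card_R_eq (h4 : p % 4 = 3) : (R p).card = (p - 1) / 2 := by
  have := card_R (p := p) h4
  omega

lemma prod_R_mul {M : Type*} [CommMonoid M] (f : ZMod p → M) {u : ZMod p} (hu : u ∈ R p) :
    ∏ r ∈ R p, f (r * u) = ∏ r ∈ R p, f r := by
  refine Finset.prod_bij' (fun r _ => r * u) (fun r _ => r * u⁻¹) ?_ ?_ ?_ ?_ ?_
  · intro a ha; exact mul_mem_R ha hu
  · intro a ha; exact mul_mem_R ha (inv_mem_R hu)
  · intro a _; rw [mul_assoc, mul_inv_cancel₀ (ne_zero_of_mem_R hu), mul_one]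
  · intro a _; rw [mul_assoc, inv_mul_cancel₀ (ne_zero_of_mem_R hu), mul_one]
  · intro a _; rfl

lemma sum_R_mul {M : Type*} [AddCommMonoid M] (f : ZMod p → M) {u : ZMod p} (hu : u ∈ R p) :
    ∑ r ∈ R p, f (r * u) = ∑ r ∈ R p, f r := by
  refine Finset.sum_bij' (fun r _ => r * u) (fun r _ => r * u⁻¹) ?_ ?_ ?_ ?_ ?_
  · intro a ha; exact mul_mem_R ha hu
  · intro a ha; exact mul_mem_R ha (inv_mem_R hu)
  · intro a _; rw [mul_assoc, mul_inv_cancel₀ (ne_zero_of_mem_R hu), mul_one]
  · intro a _; rw [mul_assoc, inv_mul_cancel₀ (ne_zero_of_mem_R hu), mul_one]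
  · intro a _; rfl

lemma sum_R_eq_zero (h4 : p % 4 = 3) (h3 : p ≠ 3) : ∑ r ∈ R p, r = 0 := by
  have h2 := two_ne_zero_zmod (p := p) h4
  have h4' : (4 : ZMod p) ∈ R p := by
    rw [mem_R]
    have : (4 : ZMod p) = 2 ^ 2 := by norm_num
    rw [this, quadraticChar_sq_one' h2]
  have h := sum_R_mul (fun r => r) h4'
  rw [← Finset.sum_mul] at h
  have h3' : (3 : ZMod p) ≠ 0 := by
    intro h
    have h2 : ((3 : ℕ) : ZMod p) = 0 := by exact_mod_cast h
    rw [ZMod.natCast_eq_zero_iff] at h2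
    exact h3 ((Nat.prime_dvd_prime_iff_eq hpf.out Nat.prime_three).mp h2)
  have h5 : (∑ r ∈ R p, r) * 3 = 0 := by linear_combination h
  rcases mul_eq_zero.mp h5 with h | h
  · exact h
  · exact absurd h h3'

/-- `B c = ∏_{r residue} (1 - e(r c))`. -/
noncomputable def B (e : AddChar (ZMod p) ℂ) (c : ZMod p) : ℂ := ∏ r ∈ R p, (1 - e (r * c))

lemma B_mul (e : AddChar (ZMod p) ℂ) {c u : ZMod p} (hu : u ∈ R p) : B e (u * c) = B e c := by
  unfold B
  rw [← prod_R_mul (fun r => 1 - e (r * c)) hu]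
  refine Finset.prod_congr rfl fun r _ => ?_
  rw [mul_assoc]

lemma e_prod (e : AddChar (ZMod p) ℂ) (h4 : p % 4 = 3) (h3 : p ≠ 3) (c : ZMod p) :
    ∏ r ∈ R p, e (c * r) = 1 := by
  have h1 : ∀ s : Finset (ZMod p), ∏ r ∈ s, e (c * r) = e (∑ r ∈ s, c * r) := by
    intro s
    classical
    induction s using Finset.induction_on with
    | empty => simp
    | insert a s ha ih => rw [Finset.prod_insert ha, Finset.sum_insert ha, ih, e.map_add_eq_mul]
  rw [h1, ← Finset.mul_sum, sum_R_eq_zero h4 h3, mul_zero]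
  exact e.map_zero_eq_one

lemma odd_card (h4 : p % 4 = 3) : Odd (R p).card := by
  have := card_R (p := p) h4
  rw [Nat.odd_iff]
  omega

lemma B_neg (e : AddChar (ZMod p) ℂ) (h4 : p % 4 = 3) (h3 : p ≠ 3) (c : ZMod p) :
    B e (-c) = - B e c := by
  have h1 : ∀ r, (1 - e (r * -c)) = (-1) * (e (-c * r)) * (1 - e (r * c)) := by
    intro r
    have : e (-c * r) * e (r * c) = 1 := by
      rw [← e.map_add_eq_mul]
      have : -c * r + r * c = 0 := by ring
      rw [this]; exact e.map_zero_eq_one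
    have h2 : r * -c = -c * r := by ring
    rw [h2]
    linear_combination (-1 : ℂ) * this
  unfold B
  simp only [h1, Finset.prod_mul_distrib, Finset.prod_const, e_prod e h4 h3,
    (odd_card (p := p) h4).neg_one_pow]
  ring

lemma B_eq (e : AddChar (ZMod p) ℂ) (h4 : p % 4 = 3) (h3 : p ≠ 3) (c : ZMod p) (hc : c ≠ 0) :
    B e c = (quadraticChar (ZMod p) c : ℂ) * B e 1 := by
  rcases quadraticChar_dichotomy hc with h | h
  · have := B_mul e (c := 1) (mem_R.mpr h)
    rw [mul_one] at this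
    rw [this, h]; simp
  · have h' : -c ∈ R p := by rw [mem_R, char_neg h4, h]; norm_num
    have := B_mul e (c := 1) h'
    rw [mul_one, B_neg e h4 h3] at this
    rw [h]; push_cast; linear_combination (-1 : ℂ) * this

lemma prod_one_sub (e : AddChar (ZMod p) ℂ) (he : e.IsPrimitive) :
    ∏ a ∈ Finset.univ.erase (0 : ZMod p), (1 - e a) = p := by
  have hprim : IsPrimitiveRoot (e 1) (p - 1 + 1) := by
    have hp1 : p - 1 + 1 = p := Nat.sub_add_cancel hpf.out.one_le
    rw [hp1]
    refine ⟨?_, ?_⟩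
    · rw [← e.map_nsmul_eq_pow]
      simp
    · intro l hl
      rw [← e.map_nsmul_eq_pow] at hl
      have h0 : e.mulShift (l : ZMod p) = 1 → False ∨ (l : ZMod p) = 0 := by
        intro h
        right
        by_contra hne
        exact he hne h
      have h1 : e.mulShift (l : ZMod p) = 1 := by
        ext x
        rw [AddChar.mulShift_apply]
        have : (l : ZMod p) * x = x.val • (l • (1 : ZMod p)) := by
          rw [nsmul_eq_mul, nsmul_eq_mul, ZMod.natCast_val, ZMod.cast_id', id]; ring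
        rw [this, e.map_nsmul_eq_pow, hl]
        simp
      rcases h0 h1 with h | h
      · exact h.elim
      · exact (ZMod.natCast_eq_zero_iff _ _).mp h
  have h1 := hprim.prod_one_sub_pow_eq_order
  have hp1 : ((p - 1 : ℕ) : ℂ) + 1 = p := by
    have : p - 1 + 1 = p := Nat.sub_add_cancel hpf.out.one_le
    exact_mod_cast congrArg (Nat.cast (R := ℂ)) this
  rw [← hp1, ← h1]
  symm
  refine Finset.prod_bij (fun k _ => ((k + 1 : ℕ) : ZMod p)) ?_ ?_ ?_ ?_
  · intro k hk
    rw [Finset.mem_range] at hk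
    rw [Finset.mem_erase]
    refine ⟨?_, Finset.mem_univ _⟩
    intro h
    rw [ZMod.natCast_eq_zero_iff] at h
    have := Nat.le_of_dvd (Nat.succ_pos k) h
    omega
  · intro a ha b hb h
    rw [Finset.mem_range] at ha hb
    rw [ZMod.natCast_eq_natCast_iff] at h
    have h' := Nat.ModEq.eq_of_lt_of_lt h (by omega) (by omega)
    omega
  · intro b hb
    rw [Finset.mem_erase] at hb
    have hv : b.val ≠ 0 := by
      intro h
      exact hb.1 ((ZMod.val_eq_zero b).mp h)
    have hlt := ZMod.val_lt b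
    refine ⟨b.val - 1, ?_, ?_⟩
    · rw [Finset.mem_range]; omega
    · have : b.val - 1 + 1 = b.val := by omega
      rw [this]
      simp
  · intro k _
    rw [← e.map_nsmul_eq_pow]
    simp

lemma B_sq (e : AddChar (ZMod p) ℂ) (he : e.IsPrimitive) (h4 : p % 4 = 3) (h3 : p ≠ 3) :
    B e 1 ^ 2 = -(p : ℂ) := by
  classical
  have h1 := prod_one_sub e he
  have h2 := prod_split h4 (fun a => if a = 0 then (1 : ℂ) else 1 - e a)
  have h3' : ∏ a : ZMod p, (if a = 0 then (1 : ℂ) else 1 - e a) = p := by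
    rw [← h1, ← Finset.mul_prod_erase Finset.univ _ (Finset.mem_univ 0)]
    rw [if_pos rfl, one_mul]
    refine Finset.prod_congr rfl fun a ha => ?_
    rw [if_neg (Finset.mem_erase.mp ha).1]
  rw [h3', if_pos rfl, one_mul, Finset.prod_mul_distrib] at h2
  have h5 : ∏ a ∈ R p, (if a = 0 then (1 : ℂ) else 1 - e a) = B e 1 := by
    unfold B
    refine Finset.prod_congr rfl fun a ha => ?_
    rw [if_neg (ne_zero_of_mem_R ha), mul_one]
  have h6 : ∏ a ∈ R p, (if -a = 0 then (1 : ℂ) else 1 - e (-a)) = B e (-1) := by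
    unfold B
    refine Finset.prod_congr rfl fun a ha => ?_
    rw [if_neg (neg_ne_zero.mpr (ne_zero_of_mem_R ha))]
    congr 2
    ring
  rw [h5, h6, B_neg e h4 h3] at h2
  linear_combination h2

end Pool.Agent.Lib.MP_d17a30_nt
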