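import Mathlib
import Pool.Agent.Lib.MP_d17a30_nt.Chars

/-!
The determinant evaluation.
-/

namespace Pool.Agent.Lib.MP_d17a30_nt

open Matrix Finset

variable {p : ℕ} [hpf : Fact p.Prime]

/-- The half `-n = 1/2` in `ZMod p`. -/
def hf (p : ℕ) [Fact p.Prime] : ZMod p := -((R p).card : ZMod p)

lemma two_hf (h4 : p % 4 = 3) : 2 * hf p = 1 := by
  have h := card_R (p := p) h4
  have h' : ((p : ℕ) : ZMod p) = ((2 * (R p).card + 1 : ℕ) : ZMod p) := congrArg _ h
  rw [ZMod.natCast_self] at h'
  push_cast at h'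
  unfold hf
  linear_combination h'

lemma e_pow_p (e : AddChar (ZMod p) ℂ) (a : ZMod p) : e a ^ p = 1 := by
  rw [← e.map_nsmul_eq_pow]
  simp

lemma e_ne_zero (e : AddChar (ZMod p) ℂ) (a : ZMod p) : e a ≠ 0 := by
  intro h
  have := e_pow_p e a
  rw [h, zero_pow hpf.out.ne_zero] at this
  norm_num at this

lemma e_add_ne_zero (e : AddChar (ZMod p) ℂ) (h4 : p % 4 = 3) (a b : ZMod p) :
    e a + e b ≠ 0 := by
  intro h
  have h1 : e a = - e b := by linear_combination h
  have h2 := e_pow_p e a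
  have hodd : Odd p := by rw [Nat.odd_iff]; omega
  rw [h1, hodd.neg_pow, e_pow_p e b] at h2
  norm_num at h2

lemma e_sub (e : AddChar (ZMod p) ℂ) (a b : ZMod p) : e (a - b) * e b = e a := by
  rw [← e.map_add_eq_mul, sub_add_cancel]

lemma e_eq_one_iff (e : AddChar (ZMod p) ℂ) (he : e.IsPrimitive) (a : ZMod p) :
    e a = 1 ↔ a = 0 := by
  constructor
  · intro h
    by_contra hne
    apply he hne
    ext x
    rw [AddChar.mulShift_apply]
    have : a * x = x.val • a := by
      rw [nsmul_eq_mul, ZMod.natCast_val, ZMod.cast_id', id]; ring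
    rw [this, e.map_nsmul_eq_pow, h]
    simp
  · rintro rfl
    exact e.map_zero_eq_one

/-- geometric sum -/
lemma geom (e : AddChar (ZMod p) ℂ) (he : e.IsPrimitive) (h4 : p % 4 = 3) (a b : ZMod p)
    (n : ℕ) (hn : n = (R p).card) :
    (1 : ℂ) * (if a = b then 1 else 0) - (2 / p) * ∑ k : Fin n, e (-(a * (k : ℕ))) * e (b * (k : ℕ))
      = (2 / p) * (e (hf p * a) ^ 2 * ((e (hf p * b))⁻¹ * (e (hf p * a) + e (hf p * b))⁻¹)) := by
  have hp0 : (p : ℂ) ≠ 0 := by exact_mod_cast hpf.out.ne_zero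
  have h2h := two_hf (p := p) h4
  have hcard := card_R (p := p) h4
  by_cases hab : a = b
  · subst hab
    rw [if_pos rfl]
    have h1 : ∀ k : Fin n, e (-(a * (k : ℕ))) * e (a * (k : ℕ)) = 1 := by
      intro k
      rw [← e.map_add_eq_mul]; simp
    simp only [h1, Finset.sum_const, Finset.card_univ, Fintype.card_fin, nsmul_eq_mul, mul_one]
    have hx := e_ne_zero e (hf p * a)
    have hnp : (p : ℂ) = 2 * n + 1 := by
      rw [hn]; exact_mod_cast congrArg (Nat.cast (R := ℂ)) hcard
    field_simp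
    linear_combination 2 * hnp
  · rw [if_neg hab]
    have h1 : ∀ k : Fin n, e (-(a * (k : ℕ))) * e (b * (k : ℕ)) = e (b - a) ^ (k : ℕ) := by
      intro k
      rw [← e.map_add_eq_mul, ← e.map_nsmul_eq_pow, nsmul_eq_mul]
      congr 1; ring
    simp only [h1]
    rw [Fin.sum_univ_eq_sum_range (fun k => e (b - a) ^ k) n]
    have hne : e (b - a) ≠ 1 := by
      rw [Ne, e_eq_one_iff e he, sub_eq_zero]
      exact fun h => hab h.symm
    rw [geom_sum_eq hne]
    have hxa := e_ne_zero e (hf p * a)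
    have hxb := e_ne_zero e (hf p * b)
    have hs := e_add_ne_zero e h4 (hf p * a) (hf p * b)
    -- e (b - a) = (x_b / x_a)^2
    have h3 : e (b - a) = (e (hf p * b) / e (hf p * a)) ^ 2 := by
      have h31 : e (b - a) * e (hf p * a) ^ 2 = e (hf p * b) ^ 2 := by
        rw [← e.map_nsmul_eq_pow, ← e.map_nsmul_eq_pow, ← e.map_add_eq_mul]
        congr 1
        simp only [nsmul_eq_mul]
        push_cast
        linear_combination (-b + a) * h2h
      rw [div_pow, eq_div_iff (pow_ne_zero 2 hxa)]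
      exact h31
    have h4' : e (b - a) ^ n = e (hf p * a) / e (hf p * b) := by
      have h41 : e (b - a) ^ n * e (hf p * b) = e (hf p * a) := by
        rw [← e.map_nsmul_eq_pow, ← e.map_add_eq_mul]
        congr 1
        rw [nsmul_eq_mul, hn]
        unfold hf
        ring
      rw [eq_div_iff hxb]
      exact h41
    rw [h4']
    rw [h3] at hne ⊢
    have hne' : e (hf p * b) ^ 2 - e (hf p * a) ^ 2 ≠ 0 := by
      intro h
      apply hne
      field_simp
      linear_combination h
    have hd : (e (hf p * b) / e (hf p * a)) ^ 2 - 1 ≠ 0 := sub_ne_zero.mpr hne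
    have hab' : e (hf p * b) - e (hf p * a) ≠ 0 := by
      intro h
      apply hne'
      linear_combination (e (hf p * b) + e (hf p * a)) * h
    have hd2 : (e (hf p * b) / e (hf p * a)) ^ 2 - 1 =
        (e (hf p * b) - e (hf p * a)) * (e (hf p * a) + e (hf p * b)) / e (hf p * a) ^ 2 := by
      field_simp; ring
    rw [hd2]
    field_simp
    ring

/-- the sign product -/
lemma sign_prod (h4 : p % 4 = 3) :
    ∏ t ∈ (R p).erase 1, (Complex.I * (quadraticChar (ZMod p) (t - 1) : ℂ)) = 1 := by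
  refine Finset.prod_involution (fun t _ => t⁻¹) ?_ ?_ ?_ ?_
  · intro t ht
    rw [Finset.mem_erase] at ht
    have ht0 := ne_zero_of_mem_R ht.2
    have h1 : (t - 1) * (t⁻¹ - 1) = -(t - 1) ^ 2 * t⁻¹ := by
      field_simp; ring
    have h2 : quadraticChar (ZMod p) (t - 1) * quadraticChar (ZMod p) (t⁻¹ - 1) = -1 := by
      rw [← map_mul, h1, map_mul, char_neg h4, quadraticChar_sq_one' (sub_ne_zero.mpr ht.1),
        mem_R.mp (inv_mem_R ht.2)]
      norm_num
    have h3 : ((quadraticChar (ZMod p) (t - 1) : ℤ) : ℂ) *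
        (quadraticChar (ZMod p) (t⁻¹ - 1) : ℤ) = -1 := by exact_mod_cast h2
    linear_combination (Complex.I ^ 2) * h3 - Complex.I_sq
  · intro t ht _ h
    rw [Finset.mem_erase] at ht
    have ht0 := ne_zero_of_mem_R ht.2
    have h1 : t * t = 1 := by
      calc t * t = t * t⁻¹ := by rw [h]
        _ = 1 := mul_inv_cancel₀ ht0
    rcases mul_self_eq_one_iff.mp h1 with h2 | h2
    · exact ht.1 h2
    · have h3 := mem_R.mp ht.2
      rw [h2, char_neg_one h4] at h3
      norm_num at h3
  · intro t ht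
    rw [Finset.mem_erase] at ht ⊢
    refine ⟨?_, inv_mem_R ht.2⟩
    intro h
    exact ht.1 (inv_eq_one.mp h)
  · intro t _
    exact inv_inv t

/-- The off diagonal product times the diagonal. -/
lemma offdiag (e : AddChar (ZMod p) ℂ) (he : e.IsPrimitive) (h4 : p % 4 = 3) (h3 : p ≠ 3)
    (m : ℕ) (hm : (R p).card = 2 * m + 1) :
    ∏ a ∈ R p, ∏ b ∈ R p, (if a = b then (2 * e (hf p * a))⁻¹ else
      (e (hf p * a) - e (hf p * b)) / (e (hf p * a) + e (hf p * b))) =
      (2⁻¹) ^ (2 * m + 1) * (p : ℂ) ^ m := by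
  have hB2 := B_sq e he h4 h3
  have hp0 : (p : ℂ) ≠ 0 := by exact_mod_cast hpf.out.ne_zero
  have hB0 : B e 1 ≠ 0 := by
    intro h; rw [h] at hB2; apply hp0; linear_combination hB2
  have h1 : ∀ a ∈ R p, ∏ b ∈ R p, (if a = b then (2 * e (hf p * a))⁻¹ else
      (e (hf p * a) - e (hf p * b)) / (e (hf p * a) + e (hf p * b))) =
      ∏ t ∈ R p, (if t = 1 then (2 * e (hf p * a))⁻¹ else
      (1 - e (a * (hf p * (t - 1)))) ^ 2 / (1 - e (a * (t - 1)))) := by
    intro a ha
    have ha0 := ne_zero_of_mem_R ha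
    rw [← prod_R_mul _ ha]
    refine Finset.prod_congr rfl fun t ht => ?_
    by_cases ht1 : t = 1
    · subst ht1; simp
    · have h11 : a ≠ t * a := by
        intro h
        apply ht1
        have : (t - 1) * a = 0 := by linear_combination -h
        rcases mul_eq_zero.mp this with h | h
        · exact sub_eq_zero.mp h
        · exact absurd h ha0
      rw [if_neg h11, if_neg ht1]
      have hx := e_ne_zero e (hf p * a)
      have hs := e_add_ne_zero e h4 (hf p * a) (hf p * (t * a))
      have h12 : e (hf p * (t * a)) = e (a * (hf p * (t - 1))) * e (hf p * a) := by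
        rw [← e.map_add_eq_mul]; congr 1; ring
      have h13 : e (a * (t - 1)) = e (a * (hf p * (t - 1))) ^ 2 := by
        rw [← e.map_nsmul_eq_pow]; congr 1
        simp only [nsmul_eq_mul]; push_cast
        linear_combination (-a * (t - 1)) * two_hf (p := p) h4
      have h14 : e (a * (t - 1)) ≠ 1 := by
        rw [Ne, e_eq_one_iff e he]
        exact mul_ne_zero ha0 (sub_ne_zero.mpr ht1)
      rw [h12] at hs ⊢
      rw [h13] at h14 ⊢
      set y := e (a * (hf p * (t - 1))) with hy
      have h15 : 1 - y ^ 2 ≠ 0 := sub_ne_zero.mpr (Ne.symm h14)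
      have h16 : (1 - y) * (1 + y) ≠ 0 := by
        intro h; apply h15; linear_combination h
      have h17 : 1 - y ≠ 0 := left_ne_zero_of_mul h16
      have h18 : 1 + y ≠ 0 := right_ne_zero_of_mul h16
      have h19 : 1 - y ^ 2 = (1 - y) * (1 + y) := by ring
      rw [h19]
      have h20 : e (hf p * a) + y * e (hf p * a) = e (hf p * a) * (1 + y) := by ring
      rw [h20]
      field_simp
  rw [Finset.prod_congr rfl h1, Finset.prod_comm]
  rw [← Finset.mul_prod_erase (R p) _ one_mem_R]
  have h5 : ∏ a ∈ R p, (if (1 : ZMod p) = 1 then (2 * e (hf p * a))⁻¹ else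
      (1 - e (a * (hf p * (1 - 1)))) ^ 2 / (1 - e (a * (1 - 1)))) = (2⁻¹) ^ (2 * m + 1) := by
    simp only [if_true, mul_inv]
    rw [Finset.prod_mul_distrib, Finset.prod_inv_distrib (f := fun a => e (hf p * a)),
      e_prod e h4 h3, Finset.prod_const, hm]
    simp
  rw [h5]
  congr 1
  have h6 : ∀ t ∈ (R p).erase 1, ∏ a ∈ R p, (if t = 1 then (2 * e (hf p * a))⁻¹ else
      (1 - e (a * (hf p * (t - 1)))) ^ 2 / (1 - e (a * (t - 1)))) =
      (Complex.I * (quadraticChar (ZMod p) (t - 1) : ℂ)) * (B e 1 / Complex.I) := by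
    intro t ht
    rw [Finset.mem_erase] at ht
    simp only [if_neg ht.1]
    rw [Finset.prod_div_distrib, Finset.prod_pow]
    change (B e (hf p * (t - 1))) ^ 2 / B e (t - 1) = _
    have ht1 : t - 1 ≠ 0 := sub_ne_zero.mpr ht.1
    have hh0 : hf p ≠ 0 := by
      intro h
      have := two_hf (p := p) h4
      rw [h] at this; simp at this
    rw [B_eq e h4 h3 _ (mul_ne_zero hh0 ht1), B_eq e h4 h3 _ ht1, mul_pow]
    have h7 : ((quadraticChar (ZMod p) (hf p * (t - 1)) : ℤ) : ℂ) ^ 2 = 1 := by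
      exact_mod_cast quadraticChar_sq_one (mul_ne_zero hh0 ht1)
    have h8 : ((quadraticChar (ZMod p) (t - 1) : ℤ) : ℂ) ^ 2 = 1 := by
      exact_mod_cast quadraticChar_sq_one ht1
    have h9 : ((quadraticChar (ZMod p) (t - 1) : ℤ) : ℂ) ≠ 0 := by
      intro h; rw [h] at h8; norm_num at h8
    rw [h7]
    have hI := Complex.I_ne_zero
    field_simp
    rw [h8]
  rw [Finset.prod_congr rfl h6, Finset.prod_mul_distrib, sign_prod h4, one_mul,
    Finset.prod_const, Finset.card_erase_of_mem one_mem_R, hm]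
  have h10 : 2 * m + 1 - 1 = 2 * m := by omega
  rw [h10, pow_mul, div_pow, hB2, Complex.I_sq]
  congr 1
  ring

end Pool.Agent.Lib.MP_d17a30_nt
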