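import Mathlib
import Pool.Agent.Lib.MP_d17a30_nt.Main

/-!
The determinant evaluation, final assembly.
-/

namespace Pool.Agent.Lib.MP_d17a30_nt

open Matrix Finset Polynomial

variable {p : ℕ} [hpf : Fact p.Prime]

/-- `det (X + A)` is affine in `X`. -/
lemma det_affine {n : ℕ} (A : Matrix (Fin (n+1)) (Fin (n+1)) ℤ) :
    ∃ s : ℤ, (Matrix.of fun j k => (X + C (A j k) : ℤ[X])).det = C A.det + X * C s := by
  classical
  -- subtract the first row
  set B : Matrix (Fin (n+1)) (Fin (n+1)) ℤ := Matrix.of fun i j =>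
    if i = 0 then A i j else A i j - A 0 j with hB
  have hAB : A.det = B.det := by
    apply Matrix.det_eq_of_forall_row_eq_smul_add_const
      (fun i => if i = 0 then 0 else 1) 0 (by simp)
    intro i j
    by_cases hi : i = 0
    · subst hi; simp [hB]
    · simp [hB, hi]
  set D : Matrix (Fin (n+1)) (Fin (n+1)) ℤ[X] := Matrix.of fun i j =>
    if i = 0 then X + C (A i j) else C (A i j - A 0 j) with hD
  have h1 : (Matrix.of fun j k => (X + C (A j k) : ℤ[X])).det = D.det := by
    apply Matrix.det_eq_of_forall_row_eq_smul_add_const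
      (fun i => if i = 0 then 0 else 1) 0 (by simp)
    intro i j
    by_cases hi : i = 0
    · subst hi; simp [hD]
    · simp only [hD, hi, Matrix.of_apply, if_true, if_false, one_mul, map_sub]
      ring
  refine ⟨(B.updateRow 0 (fun _ => 1)).det, ?_⟩
  rw [h1]
  have h2 : D = (B.map C).updateRow 0 ((fun j => C (B 0 j)) + (X : ℤ[X]) • (fun _ : Fin (n+1) => (1 : ℤ[X]))) := by
    ext1 i j
    by_cases hi : i = 0
    · subst hi
      simp [hD, hB]; ring
    · rw [Matrix.updateRow_ne hi]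
      simp [hD, hB, hi]
  rw [h2, Matrix.det_updateRow_add, Matrix.det_updateRow_smul]
  congr 1
  · have h3 : (B.map C).updateRow 0 (fun j => C (B 0 j)) = B.map C := by
      ext1 i j
      by_cases hi : i = 0
      · subst hi
        simp
      · rw [Matrix.updateRow_ne hi]
    rw [h3, hAB]
    exact (RingHom.map_det C B).symm
  · congr 1
    have h3 : (B.map C).updateRow 0 (fun _ => (1 : ℤ[X])) =
        (B.updateRow 0 (fun _ => 1)).map C := by
      ext1 i j
      by_cases hi : i = 0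
      · subst hi
        simp
      · simp [Matrix.updateRow_ne hi]
    rw [h3]
    exact (RingHom.map_det C _).symm

lemma legendre_sub (a b : ℕ) : legendreSym p ((a : ℤ) - (b : ℤ)) =
    quadraticChar (ZMod p) ((a : ZMod p) - (b : ZMod p)) := by
  unfold legendreSym
  push_cast
  rfl

lemma char_gauss (e : AddChar (ZMod p) ℂ) (h4 : p % 4 = 3) :
    ∃ g : ℂ, (e.IsPrimitive → g ^ 2 = -(p : ℂ)) ∧
      ∀ c : ZMod p, g * (quadraticChar (ZMod p) c : ℂ) =
        ∑ a ∈ R p, (e (a * c) - e (-(a * c))) := by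
  set χ' : MulChar (ZMod p) ℂ := (quadraticChar (ZMod p)).ringHomComp (Int.castRingHom ℂ) with hχ
  have hχa : ∀ a, χ' a = (quadraticChar (ZMod p) a : ℂ) := by
    intro a; simp [hχ, MulChar.ringHomComp_apply]
  have hχ1 : χ' ≠ 1 := by
    intro h
    have h1 := hχa (-1)
    rw [h, char_neg_one h4] at h1
    rw [MulChar.one_apply (isUnit_one.neg)] at h1
    norm_num at h1
  have hq : χ'.IsQuadratic := by
    intro a
    rw [hχa]
    rcases quadraticChar_isQuadratic (F := ZMod p) a with h | h | h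
    · left; rw [h]; simp
    · right; left; rw [h]; simp
    · right; right; rw [h]; simp
  refine ⟨gaussSum χ' e, ?_, ?_⟩
  · intro he
    rw [gaussSum_sq hχ1 hq he, hχa, char_neg_one h4, ZMod.card]
    push_cast; ring
  · intro c
    have h1 : ∑ a : ZMod p, χ' a * e (a * c) = gaussSum χ' e * (quadraticChar (ZMod p) c : ℂ) := by
      by_cases hc : c = 0
      · subst hc
        have : ∑ a : ZMod p, χ' a * e (a * 0) = ∑ a : ZMod p, χ' a := by
          refine Finset.sum_congr rfl fun a _ => ?_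
          rw [mul_zero, e.map_zero_eq_one, mul_one]
        rw [this, MulChar.sum_eq_zero_of_ne_one hχ1]
        simp
      · have h2 := gaussSum_mulShift χ' e (Units.mk0 c hc)
        rw [Units.val_mk0] at h2
        have h3 : gaussSum χ' (e.mulShift c) = ∑ a : ZMod p, χ' a * e (a * c) := by
          unfold gaussSum
          refine Finset.sum_congr rfl fun a _ => ?_
          rw [AddChar.mulShift_apply, mul_comm c a]
        rw [← h3, ← h2, hχa]
        have h5 : ((quadraticChar (ZMod p) c : ℤ) : ℂ) ^ 2 = 1 := by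
          exact_mod_cast quadraticChar_sq_one hc
        linear_combination (-gaussSum χ' (e.mulShift c)) * h5
    rw [← h1]
    have h6 := prod_split (M := Multiplicative ℂ) h4
      (fun a => Multiplicative.ofAdd (χ' a * e (a * c)))
    have h7 := congrArg Multiplicative.toAdd h6
    rw [toAdd_mul] at h7
    simp only [toAdd_prod, toAdd_mul, toAdd_ofAdd] at h7
    rw [h7, hχa 0]
    simp only [MulChar.map_zero, Int.cast_zero, zero_mul, zero_add]
    refine Finset.sum_congr rfl fun a ha => ?_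
    rw [hχa, hχa, char_neg h4, mem_R.mp ha, neg_mul]
    push_cast; ring

lemma sum_all (e : AddChar (ZMod p) ℂ) (he : e.IsPrimitive) (h4 : p % 4 = 3) (c : ZMod p) :
    1 + ∑ a ∈ R p, (e (a * c) + e (-(a * c))) = if c = 0 then (p : ℂ) else 0 := by
  have h6 := prod_split (M := Multiplicative ℂ) h4
      (fun a => Multiplicative.ofAdd (e (a * c)))
  have h7 := congrArg Multiplicative.toAdd h6
  rw [toAdd_mul] at h7
  simp only [toAdd_prod, toAdd_mul, toAdd_ofAdd] at h7
  rw [zero_mul, e.map_zero_eq_one] at h7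
  simp only [neg_mul] at h7
  rw [← h7, AddChar.sum_mulShift c he, ZMod.card]
  push_cast
  rfl

lemma det_at (h4 : p % 4 = 3) (h3 : p ≠ 3) (n : ℕ) (hn : n = (R p).card) :
    ∃ x : ℂ, x ≠ 0 ∧
      (Matrix.of fun j k : Fin n => x + ((quadraticChar (ZMod p)
        (((j : ℕ) : ZMod p) - ((k : ℕ) : ZMod p)) : ℤ) : ℂ)).det = x := by
  classical
  set e : AddChar (ZMod p) ℂ := ZMod.stdAddChar with hedef
  have he : e.IsPrimitive := ZMod.isPrimitive_stdAddChar p
  obtain ⟨g, hg2, hg⟩ := char_gauss e h4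
  have hg2 := hg2 he
  have hp0 : (p : ℂ) ≠ 0 := by exact_mod_cast hpf.out.ne_zero
  have hg0 : g ≠ 0 := by
    intro h; rw [h] at hg2; apply hp0; linear_combination hg2
  refine ⟨-g⁻¹, neg_ne_zero.mpr (inv_ne_zero hg0), ?_⟩
  set M : Matrix (Fin n) (Fin n) ℂ := (Matrix.of fun j k : Fin n => -g⁻¹ + ((quadraticChar (ZMod p)
        (((j : ℕ) : ZMod p) - ((k : ℕ) : ZMod p)) : ℤ) : ℂ)) with hM
  set V : Matrix (Fin n) (R p) ℂ := Matrix.of fun j a => e ((a : ZMod p) * (j : ℕ)) with hV
  set W : Matrix (R p) (Fin n) ℂ := Matrix.of fun a k => (2 / p) * e (-((a : ZMod p) * (k : ℕ)))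
    with hW
  have hodd := odd_card (p := p) h4
  obtain ⟨m, hm⟩ := hodd
  have hcardp := card_R (p := p) h4
  have h1 : g • M = (-(p : ℂ)) • (1 - V * W) := by
    ext j k
    simp only [hM, hV, hW, Matrix.smul_apply, Matrix.of_apply, smul_eq_mul, Matrix.sub_apply,
      Matrix.mul_apply]
    rw [mul_add, hg]
    have h11 := sum_all e he h4 (((j : ℕ) : ZMod p) - ((k : ℕ) : ZMod p))
    have h12 : (((j : ℕ) : ZMod p) - ((k : ℕ) : ZMod p) = 0) ↔ j = k := by
      rw [sub_eq_zero]
      constructor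
      · intro h
        rw [ZMod.natCast_eq_natCast_iff] at h
        have := Nat.ModEq.eq_of_lt_of_lt h (by omega) (by omega)
        exact Fin.ext this
      · rintro rfl; rfl
    rw [Matrix.one_apply]
    have h13 : (if (((j : ℕ) : ZMod p) - ((k : ℕ) : ZMod p) = 0) then (p : ℂ) else 0) =
        p * (if j = k then 1 else 0) := by
      by_cases h : j = k
      · rw [if_pos (h12.mpr h), if_pos h, mul_one]
      · rw [if_neg (fun h' => h (h12.mp h')), if_neg h, mul_zero]
    rw [h13] at h11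
    have h14 : ∑ a : R p, e ((a : ZMod p) * (j : ℕ)) * (2 / p * e (-((a : ZMod p) * (k : ℕ)))) =
        (2 / p) * ∑ a ∈ R p, e (a * (((j : ℕ) : ZMod p) - ((k : ℕ) : ZMod p))) := by
      rw [Finset.sum_coe_sort (R p) (fun a => e (a * (j : ℕ)) * (2 / p * e (-(a * (k : ℕ)))))]
      rw [Finset.mul_sum]
      refine Finset.sum_congr rfl fun a _ => ?_
      have : a * (((j : ℕ) : ZMod p) - ((k : ℕ) : ZMod p)) = a * (j : ℕ) + (-(a * (k : ℕ))) := by
        ring
      rw [this, e.map_add_eq_mul]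
      ring
    rw [h14]
    rw [Finset.sum_sub_distrib, Finset.sum_add_distrib] at *
    have h15 : g * -g⁻¹ = -1 := by field_simp
    rw [h15]
    have h16 : (p : ℂ) * (2 / p) = 2 := by field_simp
    linear_combination (-1 : ℂ) * h11 +
      (-(∑ x ∈ R p, e (x * (((j : ℕ) : ZMod p) - ((k : ℕ) : ZMod p))))) * h16
  have h2 : (1 - W * V) = Matrix.of fun a b : R p => ((2 / p) * e (hf p * a) ^ 2) *
      (Matrix.of fun a b : R p => (e (hf p * b))⁻¹ *
        (Matrix.of fun a b : R p => (e (hf p * a) + e (hf p * b))⁻¹) a b) a b := by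
    ext a b
    simp only [hV, hW, Matrix.of_apply, Matrix.sub_apply, Matrix.mul_apply, Matrix.one_apply]
    have h21 := geom e he h4 (a : ZMod p) (b : ZMod p) n hn
    have h22 : (if a = b then (1 : ℂ) else 0) =
        (if (a : ZMod p) = (b : ZMod p) then (1 : ℂ) else 0) := by
      simp only [Subtype.coe_inj]
    rw [h22]
    rw [one_mul, Finset.mul_sum] at h21
    have h23 : ∀ x : Fin n, 2 / (p : ℂ) * e (-((a : ZMod p) * (x : ℕ))) *
        e ((b : ZMod p) * (x : ℕ)) = 2 / (p : ℂ) * (e (-((a : ZMod p) * (x : ℕ))) *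
        e ((b : ZMod p) * (x : ℕ))) := fun x => by ring
    simp only [h23]
    rw [h21]
    ring
  have h3' := congrArg Matrix.det h1
  rw [Matrix.det_smul, Matrix.det_smul, Fintype.card_fin, Matrix.det_one_sub_mul_comm, h2,
    Matrix.det_mul_column, Matrix.det_mul_row, cauchy_fintype (fun a : R p => e (hf p * a))
      (fun a b => e_add_ne_zero e h4 (hf p * a) (hf p * b))] at h3'
  have h5 : ∏ a : R p, ((2 / p : ℂ) * e (hf p * a) ^ 2) = (2 / p) ^ n := by
    rw [Finset.prod_coe_sort (R p) (fun a => (2 / p : ℂ) * e (hf p * a) ^ 2),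
      Finset.prod_mul_distrib, Finset.prod_pow, e_prod e h4 h3, Finset.prod_const, hn]
    ring
  have h6 : ∏ a : R p, (e (hf p * a))⁻¹ = 1 := by
    rw [Finset.prod_coe_sort (R p) (fun a => (e (hf p * a))⁻¹),
      Finset.prod_inv_distrib (f := fun a => e (hf p * a)), e_prod e h4 h3]
    simp
  have h7 : ∏ a : R p, ∏ b : R p, (if a = b then (2 * e (hf p * a))⁻¹ else
      (e (hf p * a) - e (hf p * b)) / (e (hf p * a) + e (hf p * b))) =
      (2⁻¹) ^ (2 * m + 1) * (p : ℂ) ^ m := by
    rw [← offdiag e he h4 h3 m hm]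
    rw [← Finset.prod_coe_sort (R p) (fun a => ∏ b ∈ R p, (if a = b then (2 * e (hf p * a))⁻¹ else
      (e (hf p * a) - e (hf p * b)) / (e (hf p * a) + e (hf p * b))))]
    refine Finset.prod_congr rfl fun a _ => ?_
    rw [← Finset.prod_coe_sort (R p) (fun b => (if (a : ZMod p) = b then (2 * e (hf p * a))⁻¹ else
      (e (hf p * a) - e (hf p * b)) / (e (hf p * a) + e (hf p * b))))]
    refine Finset.prod_congr rfl fun b _ => ?_
    simp only [Subtype.coe_inj]
  rw [h5, h6, h7, Fintype.card_coe, hm] at h3'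
  have hnm : n = 2 * m + 1 := hn.trans hm
  obtain ⟨dM, hdM⟩ : ∃ d, d = M.det := ⟨_, rfl⟩
  rw [← hdM] at h3' ⊢
  rw [hnm] at h3'
  have h8 : (-1 : ℂ) ^ ((2 * m + 1).choose 2) = (-1) ^ m := by
    have : (2 * m + 1).choose 2 = 2 * (m * m) + m := by
      rw [Nat.choose_two_right]
      have : (2 * m + 1) * (2 * m + 1 - 1) = (2 * (m * m) + m) * 2 := by
        rw [Nat.add_sub_cancel]; ring
      rw [this, Nat.mul_div_cancel _ (by norm_num)]
    rw [this, pow_add, pow_mul]; simp
  rw [h8] at h3'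
  have h9 : (-(p : ℂ)) ^ (2 * m + 1) * (2 / p) ^ (2 * m + 1) * (2⁻¹) ^ (2 * m + 1) = -1 := by
    rw [← mul_pow, ← mul_pow]
    have : -(p : ℂ) * (2 / p) * 2⁻¹ = -1 := by field_simp
    rw [this]
    exact Odd.neg_one_pow ⟨m, rfl⟩
  have h10 : g ^ (2 * m + 1) = g * ((-1) ^ m * (p : ℂ) ^ m) := by
    rw [pow_succ, pow_mul, hg2, ← mul_pow]; ring
  have h11 : ((-1 : ℂ) ^ m * (p : ℂ) ^ m) ≠ 0 :=
    mul_ne_zero (pow_ne_zero _ (by norm_num)) (pow_ne_zero _ hp0)
  rw [h10] at h3'
  have h12 : g * dM * ((-1) ^ m * (p : ℂ) ^ m) = (-1) * ((-1) ^ m * (p : ℂ) ^ m) := by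
    linear_combination h3' + ((-1) ^ m * (p : ℂ) ^ m) * h9
  have h13 := mul_right_cancel₀ h11 h12
  field_simp
  linear_combination h13

/-- The evaluation on `Fin n`. -/
theorem main_fin (h4 : p % 4 = 3) (n : ℕ) (hn : n = (p - 1) / 2) :
    (Matrix.of fun j k : Fin n => (X + C (legendreSym p ((j : ℤ) - (k : ℤ))) : ℤ[X])).det = X := by
  have hc := card_R_eq (p := p) h4
  obtain ⟨m, hm⟩ := odd_card (p := p) h4
  have hnm : n = 2 * m + 1 := by omega
  subst hnm
  by_cases h3 : p = 3
  · have hm0 : m = 0 := by omega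
    subst hm0
    simp
  set A : Matrix (Fin (2 * m + 1)) (Fin (2 * m + 1)) ℤ := Matrix.of fun j k =>
    legendreSym p ((j : ℤ) - (k : ℤ)) with hA
  have hAT : A.transpose = -A := by
    ext j k
    simp only [hA, Matrix.transpose_apply, Matrix.of_apply, Matrix.neg_apply]
    have h1 := legendre_sub (p := p) (k : ℕ) (j : ℕ)
    have h2 := legendre_sub (p := p) (j : ℕ) (k : ℕ)
    have h1' : legendreSym p (((k : ℕ) : ℤ) - ((j : ℕ) : ℤ)) =
      - legendreSym p (((j : ℕ) : ℤ) - ((k : ℕ) : ℤ)) := by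
      rw [h1, h2, ← char_neg h4, neg_sub]
    exact h1'
  have hdetA : A.det = 0 := by
    have h1 := Matrix.det_transpose A
    rw [hAT, Matrix.det_neg, Fintype.card_fin, Odd.neg_one_pow ⟨m, rfl⟩] at h1
    omega
  obtain ⟨s, hs⟩ := det_affine A
  have hs' : (Matrix.of fun j k : Fin (2 * m + 1) =>
      (X + C (legendreSym p ((j : ℤ) - (k : ℤ))) : ℤ[X])).det = X * C s := by
    have := hs
    rw [hdetA, C_0, zero_add] at this
    exact this
  rw [hs']
  obtain ⟨x, hx0, hx⟩ := det_at (p := p) h4 h3 (2 * m + 1) hm.symm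
  have h5 := congrArg (Polynomial.eval₂RingHom (Int.castRingHom ℂ) x) hs'
  rw [RingHom.map_det, map_mul] at h5
  have h6 : (Polynomial.eval₂RingHom (Int.castRingHom ℂ) x).mapMatrix
      (Matrix.of fun j k : Fin (2 * m + 1) =>
      (X + C (legendreSym p ((j : ℤ) - (k : ℤ))) : ℤ[X])) =
      (Matrix.of fun j k : Fin (2 * m + 1) => x + ((quadraticChar (ZMod p)
        (((j : ℕ) : ZMod p) - ((k : ℕ) : ZMod p)) : ℤ) : ℂ)) := by
    ext j k
    simp only [RingHom.mapMatrix_apply, Matrix.map_apply, Matrix.of_apply,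
      Polynomial.coe_eval₂RingHom, Polynomial.eval₂_add, Polynomial.eval₂_X, Polynomial.eval₂_C]
    congr 1
    have h1 := legendre_sub (p := p) (j : ℕ) (k : ℕ)
    have h1' : legendreSym p ((j : ℤ) - (k : ℤ)) = quadraticChar (ZMod p)
        (((j : ℕ) : ZMod p) - ((k : ℕ) : ZMod p)) := h1
    rw [h1']
    rfl
  rw [h6, hx] at h5
  simp only [Polynomial.coe_eval₂RingHom, Polynomial.eval₂_X, Polynomial.eval₂_C] at h5
  have h7 : ((s : ℤ) : ℂ) = 1 := by
    have h8 : x * ((s : ℤ) : ℂ) = x * 1 := by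
      rw [mul_one]; exact h5.symm
    exact mul_left_cancel₀ hx0 h8
  have h9 : s = 1 := by exact_mod_cast h7
  rw [h9]
  simp

end Pool.Agent.Lib.MP_d17a30_nt
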